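import Pool.Agent.Q46.ND.StmF

/-! # Project ND, job ND-FC: models of hypersurfaces with a node -/

set_option autoImplicit false
set_option linter.unusedSectionVars false
set_option linter.unusedVariables false

open AlgebraicGeometry CategoryTheory CategoryTheory.Limits MvPolynomial NumberField
open scoped Pointwise

namespace Pool.Agent.Q111.ND

open Pool.Agent.H918R2.Quad Pool.Agent.W418 Pool.Agent.TH214.RM Pool.Agent.Q46.ND

theorem t_FC (h1 : P_LI) : P_FC := by
  refine ⟨?_, ?_⟩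
  · intro K _ _ n hn G d hd hGd hsm hloc A _ _ π hπ hker 𝒜 _ h𝒜 Y hY
    have hirr := irreducible_of_smooth hn G d (by omega) hGd hsm
    obtain ⟨F, _, _, x, b, hx0, hrel, hgen, htb⟩ := exists_ff G hirr d hGd
      (not_dvd_X G hirr.ne_zero d hd hGd)
    let _ : Algebra (𝓞 K) F := ((algebraMap K F).comp (algebraMap (𝓞 K) K)).toAlgebra
    have hst : IsScalarTower (𝓞 K) K F := IsScalarTower.of_algebraMap_eq fun _ => rfl
    have hM : GoodModule (𝓞 K) x := h1 G hirr.ne_zero d hGd hsm hloc x hx0 hrel hgen b htb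
    obtain ⟨ε, hε, hεgen, hε1⟩ :=
      exists_eps x hx0 hgen _ htb G hirr.prime d hGd hrel π hπ hker 𝒜 h𝒜
    exact hasRegularModel_of_goodModule (O := 𝓞 K) 𝒜 ε hε hεgen x hε1 hM Y hY
  · intro O K _ _ _ _ _ n hn G d hd hGd hsm hloc A _ _ π hπ hker 𝒜 _ h𝒜 Y f i hi
    have hirr := irreducible_of_smooth hn G d (by omega) hGd hsm
    obtain ⟨F, _, _, x, b, hx0, hrel, hgen, htb⟩ := exists_ff G hirr d hGd
      (not_dvd_X G hirr.ne_zero d hd hGd)
    let _ : Algebra O F := ((algebraMap K F).comp (algebraMap O K)).toAlgebra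
    have hst : IsScalarTower O K F := IsScalarTower.of_algebraMap_eq fun _ => rfl
    have hM : GoodModule O x := h1 G hirr.ne_zero d hGd hsm hloc x hx0 hrel hgen b htb
    obtain ⟨ε, hε, hεgen, hε1⟩ :=
      exists_eps x hx0 hgen _ htb G hirr.prime d hGd hrel π hπ hker 𝒜 h𝒜
    exact hasModel_of_goodModule (O := O) 𝒜 ε hε hεgen x hε1 hM f i hi

end Pool.Agent.Q111.ND
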