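import Pool.Agent.Q46.ND.StmF

/-! # Project ND, jobs ND-FD1 and ND-FD2: a regular form and stability -/

set_option autoImplicit false
set_option linter.unusedSectionVars false
set_option linter.unusedVariables false

open MvPolynomial
open scoped Pointwise

namespace Pool.Agent.Q111.ND

open Pool.Agent.H918R2.Quad Pool.Agent.W418 Pool.Agent.TH214.RM Pool.Agent.Q46.ND

theorem t_FD2 : P_FD2 := by
  intro O _ 𝔭 n f g W hW hcrit s Q hQ hCQ hGQ
  have hmap : 𝔭.map (C : O →+* MvPolynomial {j : Fin (n + 2) // j ≠ s} O) ≤ Q := by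
    rw [Ideal.map_le_iff_le_comap]
    intro r hr
    exact (hCQ r).mpr hr
  have hCW2 : (C W : MvPolynomial {j : Fin (n + 2) // j ≠ s} O) ∈ Q ^ 2 := by
    have h1 : (C W : MvPolynomial {j : Fin (n + 2) // j ≠ s} O) ∈ (𝔭 ^ 2).map
      (C : O →+* MvPolynomial {j : Fin (n + 2) // j ≠ s} O) := Ideal.mem_map_of_mem C hW
    rw [Ideal.map_pow] at h1
    exact Ideal.pow_right_mono hmap 2 h1
  have hCW : (C W : MvPolynomial {j : Fin (n + 2) // j ≠ s} O) ∈ Q :=
    Ideal.pow_le_self two_ne_zero hCW2
  have hd : deh s (f + C W * g) = deh s f + C W * deh s g := by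
    unfold deh
    rw [map_add, map_mul, aeval_C]
    rfl
  rw [hd] at hGQ ⊢
  have hf : deh s f ∈ Q := by
    have h1 := Q.sub_mem hGQ (Q.mul_mem_right (deh s g) hCW)
    rwa [add_sub_cancel_right] at h1
  rcases hcrit s Q hQ hCQ hf with ⟨j, hj⟩ | h
  · left
    refine ⟨j, fun h1 => hj ?_⟩
    rw [map_add, pderiv_C_mul] at h1
    have h2 := Q.sub_mem h1 (Q.mul_mem_right (pderiv j (deh s g)) hCW)
    rwa [add_sub_cancel_right] at h2
  · right
    intro k hk hkQ
    apply h k hk
    have h1 : k * deh s f = k * (deh s f + C W * deh s g) - (k * deh s g) * C W := by ring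
    rw [h1]
    exact (Q ^ 2).sub_mem hkQ ((Q ^ 2).mul_mem_left _ hCW2)

theorem t_FD1 : P_FD1 := by
  intro O _ 𝔭 h𝔭 b hb hb2 n d hd s Q hQ hCQ hGQ
  set f : MvPolynomial (Fin (n + 2)) O :=
    ∑ i : Fin (n + 1), (X i.castSucc ^ (d - 1) * X i.succ : MvPolynomial (Fin (n + 2)) O) +
      C b * X (Fin.last (n + 1)) ^ d with hf
  have hhom : f.IsHomogeneous d := by
    refine IsHomogeneous.add (IsHomogeneous.sum _ _ _ fun i _ => ?_) ?_
    · have h1 := ((isHomogeneous_X O (i.castSucc : Fin (n + 2))).pow (d - 1)).mul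
        (isHomogeneous_X O (i.succ : Fin (n + 2)))
      have h2 : 1 * (d - 1) + 1 = d := by omega
      rwa [h2] at h1
    · have h1 := (isHomogeneous_C (Fin (n + 2)) b).mul
        ((isHomogeneous_X O (Fin.last (n + 1) : Fin (n + 2))).pow d)
      have h2 : 0 + 1 * d = d := by omega
      rwa [h2] at h1
  by_contra hcon
  push Not at hcon
  obtain ⟨hder, h, hh, hhf⟩ := hcon
  have hall := all_pderiv_mem f d hhom s Q hGQ hder
  let q := Ideal.Quotient.mk Q
  have hq : ∀ z, q z = 0 ↔ z ∈ Q := fun z => Ideal.Quotient.eq_zero_iff_mem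
  let v : Fin (n + 2) → MvPolynomial {j : Fin (n + 2) // j ≠ s} O ⧸ Q := fun j => q (tau s j)
  let Φ : MvPolynomial (Fin (n + 2)) O →+* MvPolynomial {j : Fin (n + 2) // j ≠ s} O ⧸ Q :=
    q.comp (aeval (tau s) : MvPolynomial (Fin (n + 2)) O →ₐ[O] _).toRingHom
  have hΦ : ∀ P, Φ P = q (deh s P) := fun P => rfl
  have hΦX : ∀ j, Φ (X j) = v j := by
    intro j
    change q (aeval (tau s) (X j)) = q (tau s j)
    rw [aeval_X]
  have hΦb : Φ (C b) = 0 := by
    change q (aeval (tau s) (C b)) = 0
    rw [aeval_C, hq]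
    exact (hCQ b).mpr hb
  have hder2 : ∀ j, pderiv j f = ∑ i : Fin (n + 1),
      (X i.castSucc ^ (d - 1) * pderiv j (X i.succ) +
        X i.succ * (((d - 1 : ℕ) : MvPolynomial (Fin (n + 2)) O) *
          (X i.castSucc ^ (d - 1 - 1) * pderiv j (X i.castSucc)))) +
      C b * pderiv j (X (Fin.last (n + 1)) ^ d) := by
    intro j
    rw [hf, map_add, map_sum, pderiv_C_mul]
    congr 1
    refine Finset.sum_congr rfl fun i _ => ?_
    rw [Derivation.leibniz, Derivation.leibniz_pow, smul_eq_mul, smul_eq_mul, smul_eq_mul,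
      nsmul_eq_mul]
  have hstep : ∀ i : Fin (n + 1), (∀ i' : Fin (n + 1), i'.castSucc = i.succ →
      v i'.castSucc = 0) → v i.castSucc = 0 := by
    intro i hi
    have h1 : Φ (pderiv i.succ f) = 0 := by
      rw [hΦ, hq]
      exact hall i.succ
    rw [hder2, map_add, map_sum, map_mul, hΦb, zero_mul, add_zero] at h1
    have h2 : ∀ i' : Fin (n + 1), Φ (X i'.castSucc ^ (d - 1) *
        pderiv i.succ (X i'.succ : MvPolynomial (Fin (n + 2)) O) +
        X i'.succ * (((d - 1 : ℕ) : MvPolynomial (Fin (n + 2)) O) *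
          (X i'.castSucc ^ (d - 1 - 1) * pderiv i.succ (X i'.castSucc)))) =
        if i' = i then v i.castSucc ^ (d - 1) else 0 := by
      intro i'
      have h3 : Φ (X i'.castSucc ^ (d - 1 - 1) *
          pderiv i.succ (X i'.castSucc : MvPolynomial (Fin (n + 2)) O)) = 0 := by
        by_cases h4 : i'.castSucc = i.succ
        · rw [map_mul, map_pow, hΦX, hi i' h4, zero_pow (by omega), zero_mul]
        · rw [pderiv_X_of_ne h4, mul_zero, map_zero]
      rw [map_add, map_mul Φ (X i'.succ), map_mul Φ ((d - 1 : ℕ) : MvPolynomial (Fin (n + 2)) O),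
        h3, mul_zero, mul_zero, add_zero, map_mul, map_pow, hΦX]
      by_cases h5 : i' = i
      · subst h5
        rw [if_pos rfl, pderiv_X_self, map_one, mul_one]
      · rw [if_neg h5, pderiv_X_of_ne (fun h6 => h5 (Fin.succ_injective _ h6)), map_zero, mul_zero]
    rw [Finset.sum_congr rfl fun i' _ => h2 i'] at h1
    simp only [Finset.sum_ite_eq', Finset.mem_univ, if_true] at h1
    exact pow_eq_zero_iff (by omega) |>.mp h1
  have hzero : ∀ i : Fin (n + 1), v i.castSucc = 0 := by
    intro i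
    induction i using Fin.reverseInduction with
    | last =>
      apply hstep
      intro i' hi'
      exfalso
      rw [Fin.succ_last] at hi'
      exact (Fin.castSucc_ne_last i') hi'
    | cast i ih =>
      apply hstep
      intro i' hi'
      rw [hi', Fin.succ_castSucc]
      exact ih
  have hs : s = Fin.last (n + 1) := by
    by_contra hne
    obtain ⟨i, rfl⟩ := Fin.exists_castSucc_eq.mpr hne
    have h1 := hzero i
    have h2 : tau i.castSucc i.castSucc =
        (1 : MvPolynomial {j : Fin (n + 2) // j ≠ i.castSucc} O) := by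
      unfold tau
      rw [dif_pos rfl]
    change q (tau i.castSucc i.castSucc) = 0 at h1
    rw [h2, hq] at h1
    exact hQ.ne_top ((Ideal.eq_top_iff_one Q).mpr h1)
  subst hs
  have htau : ∀ i : Fin (n + 1), tau (Fin.last (n + 1)) i.castSucc ∈ Q := fun i =>
    (hq _).mp (hzero i)
  have hdeh : deh (Fin.last (n + 1)) f - C b ∈ Q ^ 2 := by
    have h1 : deh (Fin.last (n + 1)) f = ∑ i : Fin (n + 1),
        (tau (Fin.last (n + 1)) i.castSucc ^ (d - 1) * tau (Fin.last (n + 1)) i.succ) + C b := by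
      have h2 : tau (Fin.last (n + 1)) (Fin.last (n + 1)) =
          (1 : MvPolynomial {j : Fin (n + 2) // j ≠ Fin.last (n + 1)} O) := by
        unfold tau
        rw [dif_pos rfl]
      rw [hf]
      unfold deh
      simp only [map_add, map_sum, map_mul, map_pow, aeval_X, aeval_C, h2, one_pow, mul_one]
      rfl
    rw [h1, add_sub_cancel_right]
    refine Ideal.sum_mem _ fun i _ => ?_
    apply Ideal.mul_mem_right
    have h3 : d - 1 = 2 + (d - 3) := by omega
    rw [h3, pow_add]
    exact Ideal.mul_mem_right _ _ (Ideal.pow_mem_pow (htau i) 2)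
  have hhb : h * C b ∈ Q ^ 2 := by
    have h1 : h * C b = h * deh (Fin.last (n + 1)) f - h * (deh (Fin.last (n + 1)) f - C b) := by
      ring
    rw [h1]
    exact (Q ^ 2).sub_mem hhf ((Q ^ 2).mul_mem_left _ hdeh)
  have hconst : ∀ P : MvPolynomial {j : Fin (n + 2) // j ≠ Fin.last (n + 1)} O,
      P - C (constantCoeff P) ∈ Q := by
    intro P
    induction P using MvPolynomial.induction_on with
    | C a => simp
    | add p r hp hr =>
      have h1 : p + r - C (constantCoeff (p + r)) =
          (p - C (constantCoeff p)) + (r - C (constantCoeff r)) := by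
        rw [map_add, C_add]
        ring
      rw [h1]
      exact Q.add_mem hp hr
    | mul_X p j hp =>
      rw [map_mul, constantCoeff_X, mul_zero, C_0, sub_zero]
      apply Q.mul_mem_left
      obtain ⟨i, hi⟩ := Fin.exists_castSucc_eq.mpr j.2
      have h1 := htau i
      have h2 : tau (Fin.last (n + 1)) i.castSucc =
          (X j : MvPolynomial {j : Fin (n + 2) // j ≠ Fin.last (n + 1)} O) := by
        unfold tau
        rw [dif_neg (Fin.castSucc_ne_last i)]
        congr 1
        exact Subtype.ext hi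
      rwa [h2] at h1
  have hmapQ : Q.map (constantCoeff : MvPolynomial _ O →+* O) ≤ 𝔭 := by
    rw [Ideal.map_le_iff_le_comap]
    intro P hP
    rw [Ideal.mem_comap, ← hCQ]
    have h1 := Q.sub_mem hP (hconst P)
    rwa [sub_sub_cancel] at h1
  have h1 : constantCoeff (h * C b) ∈ 𝔭 ^ 2 := by
    have h2 := Ideal.mem_map_of_mem (constantCoeff : MvPolynomial _ O →+* O) hhb
    rw [Ideal.map_pow] at h2
    exact Ideal.pow_right_mono hmapQ 2 h2
  rw [map_mul, constantCoeff_C] at h1
  have h0 : constantCoeff h ∉ 𝔭 := by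
    intro h2
    apply hh
    have h3 := Q.add_mem (hconst h) ((hCQ _).mpr h2)
    rwa [sub_add_cancel] at h3
  obtain ⟨w, i, hi, hwi⟩ := h𝔭.exists_inv h0
  apply hb2
  have h4 : b = w * (constantCoeff h * b) + i * b := by
    rw [← mul_assoc, ← add_mul, hwi, one_mul]
  rw [h4, pow_two]
  rw [pow_two] at h1
  exact (𝔭 * 𝔭).add_mem ((𝔭 * 𝔭).mul_mem_left _ h1) (Ideal.mul_mem_mul hi hb)

end Pool.Agent.Q111.ND
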