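import Pool.Agent.Q46.ND.StmF

/-! # Project ND, job ND-FD3: an element of valuation one at finitely many primes -/

set_option autoImplicit false

namespace Pool.Agent.Q111.ND

open Pool.Agent.Q46.ND

theorem t_FD3 : P_FD3 := by
  classical
  intro O _ _ S hS
  have h1 : ∀ 𝔭 : S, ∃ x, x ∈ (𝔭 : Ideal O) ∧ x ∉ (𝔭 : Ideal O) ^ 2 := by
    intro 𝔭
    obtain ⟨hp, h0⟩ := hS 𝔭 𝔭.2
    obtain ⟨x, hx, hx'⟩ := Ideal.exists_mem_pow_notMem_pow_succ (𝔭 : Ideal O) h0 hp.ne_top 1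
    rw [pow_one] at hx
    exact ⟨x, hx, hx'⟩
  choose x hx hx2 using h1
  obtain ⟨y, hy⟩ := IsDedekindDomain.exists_forall_sub_mem_ideal (s := S) (fun 𝔭 => 𝔭)
    (fun _ => 2) (fun 𝔭 h𝔭 => Ideal.prime_of_isPrime (hS 𝔭 h𝔭).2 (hS 𝔭 h𝔭).1)
    (fun _ _ _ _ h => h) x
  refine ⟨y, fun 𝔭 h𝔭 => ⟨?_, ?_⟩⟩
  · have h2 := Ideal.pow_le_self two_ne_zero (hy 𝔭 h𝔭)
    have h3 := 𝔭.add_mem h2 (hx ⟨𝔭, h𝔭⟩)
    rwa [sub_add_cancel] at h3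
  · intro h2
    have h3 := (𝔭 ^ 2).sub_mem h2 (hy 𝔭 h𝔭)
    rw [sub_sub_cancel] at h3
    exact hx2 ⟨𝔭, h𝔭⟩ h3

end Pool.Agent.Q111.ND
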